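import Pool.Agent.H363Z.SubF

set_option autoImplicit false

open Pool.Agent.H363Z

universe u

/-- Thompson's group `F` has a subgroup that is not isomorphic to any diagram group. -/
theorem Pool.Agent.Results.MP_24b811_al.ASubgroupNotDiagram.result :
    ∃ H : Subgroup (Equiv.Perm ℝ), H ≤ ThompsonF ∧
      ∀ (B : Type u) (Q : Pres B) (w : List B), w ≠ [] → IsEmpty (H ≃* DiagramGroup Q w) :=
  SubF.final
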